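import Pool.Agent.Lib.MP_78c6b1_al.U2.Defs

/-! Binomial matrices below the diagonal are nonsingular. -/

namespace Pool.Agent.P78

open Finset

theorem bin_tele (f : ℕ → ℚ) (c : ℚ) (x y : ℕ) (hxy : x < y) (h : 0 ≤ c * (f y - f x)) :
    ∃ u, x ≤ u ∧ u < y ∧ 0 ≤ c * (f (u + 1) - f u) := by
  by_contra hc
  push Not at hc
  have key : ∀ n, x + (n + 1) ≤ y → c * (f (x + (n + 1)) - f x) < 0 := by
    intro n
    induction n with
    | zero => intro hn; exact hc x le_rfl (by omega)
    | succ n ih =>
      intro hn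
      have h1 := ih (by omega)
      have h2 := hc (x + (n + 1)) (by omega) (by omega)
      have e : x + (n + 1 + 1) = x + (n + 1) + 1 := by omega
      rw [e]
      nlinarith
  have h3 := key (y - x - 1) (by omega)
  have e : x + (y - x - 1 + 1) = y := by omega
  rw [e] at h3
  linarith

theorem bin_card (N : ℕ) (a b : ℕ → ℚ) (hb : ∀ r, b r ≠ 0 → a (r + 1) ≠ 0) :
    ((range N).filter fun r => b r ≠ 0).card + (if a 0 ≠ 0 then 1 else 0) ≤
      ((range (N + 1)).filter fun r => a r ≠ 0).card := by
  rw [card_filter, card_filter, sum_range_succ']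
  refine Nat.add_le_add_right (sum_le_sum fun r _ => ?_) _
  by_cases h : b r ≠ 0
  · rw [if_pos h, if_pos (hb r h)]
  · rw [if_neg h]; exact Nat.zero_le _

theorem bin_rat (N : ℕ) : ∀ (a : ℕ → ℚ) (k : ℕ) (T : ℕ → ℕ) (e : ℚ), e ≠ 0 →
    ((range N).filter fun r => a r ≠ 0).card ≤ k → (∀ i < k, T i < T (i + 1)) → N ≤ T 0 + 1 →
    (∀ i ≤ k, 0 ≤ e * (-1) ^ i * ∑ r ∈ range N, a r * ((T i).choose r : ℚ)) →
    ∀ r < N, a r = 0 := by
  induction N with
  | zero => intro a k T e _ _ _ _ _ r hr; omega
  | succ N ih =>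
    intro a k T e he hcard hT hN hs
    by_cases h0 : a 0 = 0
    · rcases Nat.eq_zero_or_pos N with hN0 | hN0
      · intro r hr
        have : r = 0 := by omega
        rw [this, h0]
      have hpos : ∀ i ≤ k, 0 < T i := by
        intro i
        induction i with
        | zero => intro _; omega
        | succ i ihi => intro hi; have := hT i (by omega); omega
      have hb := ih (fun r => a (r + 1) / ((r : ℚ) + 1)) k (fun i => T i - 1) e he
        (le_trans (le_trans (Nat.le_add_right _ _)
          (bin_card N a _ fun r hr h => hr (by rw [h, zero_div]))) hcard)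
        (fun i hi => by have := hT i hi; have := hpos i hi.le; omega)
        (by have := hpos 0 (Nat.zero_le _); omega) (fun i hi => by
          have h1 := hs i hi
          obtain ⟨t, ht⟩ : ∃ t, T i = t + 1 := ⟨T i - 1, by have := hpos i hi; omega⟩
          rw [sum_range_succ', h0, zero_mul, add_zero, ht] at h1
          have e1 : ∑ r ∈ range N, a (r + 1) * ((t + 1).choose (r + 1) : ℚ) =
              ((t : ℚ) + 1) * ∑ r ∈ range N, a (r + 1) / ((r : ℚ) + 1) * (t.choose r : ℚ) := by
            rw [mul_sum]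
            refine sum_congr rfl fun r _ => ?_
            have h2 : ((t : ℚ) + 1) * (t.choose r : ℚ) =
                ((t + 1).choose (r + 1) : ℚ) * ((r : ℚ) + 1) := by
              exact_mod_cast Nat.add_one_mul_choose_eq t r
            have h3 : (r : ℚ) + 1 ≠ 0 := by positivity
            field_simp
            linear_combination (-a (r + 1)) * h2
          rw [e1] at h1
          simp only [ht, Nat.add_sub_cancel]
          have h4 : (0 : ℚ) < (t : ℚ) + 1 := by positivity
          refine le_of_mul_le_mul_left ?_ h4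
          rw [mul_zero]
          linarith)
      intro r hr
      rcases r with _ | r
      · exact h0
      · have h5 := hb r (by omega)
        have h3 : (r : ℚ) + 1 ≠ 0 := by positivity
        exact (div_eq_zero_iff.mp h5).resolve_right h3
    · exfalso
      have hc := bin_card N a (fun r => a (r + 1)) fun _ h => h
      rw [if_pos h0] at hc
      obtain ⟨k, rfl⟩ : ∃ k', k = k' + 1 := ⟨k - 1, by omega⟩
      set f : ℕ → ℚ := fun t => ∑ r ∈ range (N + 1), a r * (t.choose r : ℚ) with hf
      have hd : ∀ u, f (u + 1) - f u = ∑ r ∈ range N, a (r + 1) * (u.choose r : ℚ) := by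
        intro u
        simp only [hf]
        rw [sum_range_succ', sum_range_succ' (fun r => a r * (u.choose r : ℚ))]
        simp only [Nat.choose_zero_right, Nat.choose_succ_succ', Nat.cast_add, mul_add,
          sum_add_distrib]
        ring
      have hu : ∀ i, ∃ u, i ≤ k → T i ≤ u ∧ u < T (i + 1) ∧
          0 ≤ (-e) * (-1) ^ i * (f (u + 1) - f u) := by
        intro i
        by_cases hi : i ≤ k
        · have h1 : 0 ≤ e * (-1) ^ i * f (T i) := hs i (by omega)
          have h2 : 0 ≤ e * (-1) ^ (i + 1) * f (T (i + 1)) := hs (i + 1) (by omega)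
          obtain ⟨u, hu⟩ := bin_tele f ((-e) * (-1) ^ i) (T i) (T (i + 1)) (hT i (by omega))
            (by rw [pow_succ] at h2; linarith)
          exact ⟨u, fun _ => hu⟩
        · exact ⟨0, fun h => absurd h hi⟩
      choose u hu using hu
      have hb := ih (fun r => a (r + 1)) k u (-e) (neg_ne_zero.mpr he) (by omega)
        (fun i hi => by have := hu i hi.le; have := hu (i + 1) hi; omega)
        (by have := hu 0 (Nat.zero_le _); omega)
        (fun i hi => by rw [← hd]; exact (hu i hi).2.2)
      have hconst : ∀ t, f t = a 0 := by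
        intro t
        simp only [hf]
        rw [sum_range_succ', sum_eq_zero fun r hr => by rw [hb r (mem_range.mp hr), zero_mul]]
        simp
      have h1 : 0 ≤ e * (-1) ^ 0 * f (T 0) := hs 0 (by omega)
      have h2 : 0 ≤ e * (-1) ^ 1 * f (T 1) := hs 1 (by omega)
      rw [hconst] at h1 h2
      have h3 : e * a 0 = 0 := by linarith
      exact h0 ((mul_eq_zero.mp h3).resolve_left he)

theorem bin_rat' (S P : Finset ℕ) (a : ℕ → ℚ) (hle : ∀ r ∈ S, ∀ T ∈ P, r ≤ T)
    (hc : S.card ≤ P.card) (hz : ∀ T ∈ P, ∑ r ∈ S, a r * (T.choose r : ℚ) = 0) :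
    ∀ r ∈ S, a r = 0 := by
  intro r₀ hr₀
  have hP : 0 < P.card := lt_of_lt_of_le (card_pos.mpr ⟨r₀, hr₀⟩) hc
  set T : ℕ → ℕ := fun i =>
    if h : i < P.card then P.orderEmbOfFin rfl ⟨i, h⟩ else P.sup id + 1 with hT
  have hmem : ∀ i < P.card, T i ∈ P := fun i hi => by
    simp only [hT, dif_pos hi]; exact orderEmbOfFin_mem _ _ _
  have hinc : ∀ i < P.card, T i < T (i + 1) := by
    intro i hi
    by_cases h : i + 1 < P.card
    · simp only [hT, dif_pos hi, dif_pos h]
      exact (P.orderEmbOfFin rfl).strictMono (Fin.mk_lt_mk.mpr (by omega))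
    · have h1 : T (i + 1) = P.sup id + 1 := by simp only [hT, dif_neg h]
      have h2 : id (T i) ≤ P.sup id := le_sup (f := id) (hmem i hi)
      rw [h1]
      exact Nat.lt_succ_of_le h2
  have hsub : S ⊆ range (T 0 + 1) := fun r hr =>
    mem_range.mpr (Nat.lt_succ_of_le (hle r hr _ (hmem 0 hP)))
  set b : ℕ → ℚ := fun r => if r ∈ S then a r else 0 with hb
  have hsum : ∀ t : ℕ, ∑ r ∈ range (T 0 + 1), b r * (t.choose r : ℚ) =
      ∑ r ∈ S, a r * (t.choose r : ℚ) := by
    intro t
    rw [← sum_subset hsub fun r _ hr => by simp only [hb, if_neg hr, zero_mul]]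
    exact sum_congr rfl fun r hr => by simp only [hb, if_pos hr]
  obtain ⟨e, he, he'⟩ : ∃ e : ℚ, e ≠ 0 ∧
      0 ≤ e * (-1) ^ P.card * ∑ r ∈ S, a r * ((T P.card).choose r : ℚ) := by
    rcases le_total 0 ((-1 : ℚ) ^ P.card * ∑ r ∈ S, a r * ((T P.card).choose r : ℚ)) with h | h
    · exact ⟨1, one_ne_zero, by linarith⟩
    · exact ⟨-1, by norm_num, by linarith⟩
  have h := bin_rat (T 0 + 1) b P.card T e he
    (le_trans (card_le_card fun r hr => by
      by_contra h
      exact (mem_filter.mp hr).2 (by simp only [hb, if_neg h])) hc) hinc le_rfl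
    (fun i hi => by
      rw [hsum]
      rcases hi.lt_or_eq with h | h
      · rw [hz _ (hmem i h), mul_zero]
      · rw [h]; exact he') r₀ (mem_range.mp (hsub hr₀))
  simpa only [hb, if_pos hr₀] using h

theorem binStmt : BinStmt := by
  intro K _ _ S P a hle hc hz r hr
  rw [← Module.forall_dual_apply_eq_zero_iff ℚ (a r)]
  intro φ
  refine bin_rat' S P (fun r => φ (a r)) hle hc (fun T hT => ?_) r hr
  have h := congrArg φ (hz T hT)
  rw [map_sum, map_zero] at h
  rw [← h]
  refine sum_congr rfl fun s _ => ?_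
  rw [mul_comm (a s), ← nsmul_eq_mul, map_nsmul, nsmul_eq_mul, mul_comm]

end Pool.Agent.P78
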