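import Pool.Agent.Lib.MP_78c6b1_al.U2.Defs
import Pool.Agent.Lib.MP_78c6b1_al.Lim.TMod

/-! Three elements of a term of the lower central series are dependent modulo `ad x`. -/

namespace Pool.Agent.P78

open PowerSeries

theorem dep_aux {K : Type} [Field K] (p : Fin 3 → Fin 2 → K⟦X⟧) :
    ∃ (c : Fin 3 → K) (g : Fin 3 → K⟦X⟧), (∃ i, c i ≠ 0) ∧ ∑ i, (C (c i) + X * g i) • p i = 0 := by
  classical
  have h1 : ¬ LinearIndependent K⟦X⟧ p := fun h => by simpa using h.fintype_card_le_finrank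
  obtain ⟨f, hf, i₀, hi₀⟩ := Fintype.not_linearIndependent_iff.1 h1
  have h2 : ∃ k, ∃ i, coeff k (f i) ≠ 0 := by
    by_contra hcon
    push Not at hcon
    exact hi₀ (PowerSeries.ext fun k => by simpa using hcon k i₀)
  obtain ⟨i₁, hi₁⟩ := Nat.find_spec h2
  have h3 : ∀ i, (X : K⟦X⟧) ^ Nat.find h2 ∣ f i := fun i => X_pow_dvd_iff.2 fun m hm => by
    by_contra hcon
    exact Nat.find_min h2 hm ⟨i, hcon⟩
  choose q hq using h3
  refine ⟨fun i => constantCoeff (q i), fun i => mk fun m => coeff (m + 1) (q i), ⟨i₁, ?_⟩, ?_⟩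
  · rw [hq i₁] at hi₁
    have := coeff_X_pow_mul (q i₁) (Nat.find h2) 0
    rw [zero_add] at this
    rwa [this, coeff_zero_eq_constantCoeff_apply] at hi₁
  · have h4 : ∀ i, C (constantCoeff (q i)) + X * (mk fun m => coeff (m + 1) (q i)) = q i :=
      fun i => by rw [add_comm]; exact (eq_X_mul_shift_add_const (q i)).symm
    simp only [h4]
    have h5 : (X : K⟦X⟧) ^ Nat.find h2 • ∑ i, q i • p i = 0 := by
      rw [Finset.smul_sum, ← hf]
      exact Finset.sum_congr rfl fun i _ => by rw [smul_smul, ← hq i]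
    exact (smul_eq_zero.1 h5).resolve_left (pow_ne_zero _ X_ne_zero)

theorem depStmt : DepStmt := by
  intro K L _ _ _ _ _ x a b H n hn u hu v hv w hw
  let S : Submodule K L :=
    { carrier := {y | ∃ f g : K⟦X⟧, y = f • a + g • b}
      add_mem' := by
        rintro _ _ ⟨f, g, rfl⟩ ⟨f', g', rfl⟩
        exact ⟨f + f', g + g', by rw [add_smul, add_smul]; abel⟩
      zero_mem' := ⟨0, 0, by simp⟩
      smul_mem' := by
        rintro c _ ⟨f, g, rfl⟩
        exact ⟨c • f, c • g, by rw [smul_add, smul_assoc, smul_assoc]⟩ }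
  have hS : gam K L n ≤ S :=
    (gam_anti hn).trans (gam_succ_le (n := 0).2 fun u v _ => H.der u v)
  obtain ⟨f₀, g₀, e₀⟩ := hS hu
  obtain ⟨f₁, g₁, e₁⟩ := hS hv
  obtain ⟨f₂, g₂, e₂⟩ := hS hw
  obtain ⟨c, g, ⟨i, hi⟩, h⟩ := dep_aux ![![f₀, g₀], ![f₁, g₁], ![f₂, g₂]]
  have h0 := congrFun h 0
  have h1 := congrFun h 1
  simp only [Fin.sum_univ_three, Pi.add_apply, Pi.smul_apply, smul_eq_mul, Matrix.cons_val_zero,
    Matrix.cons_val_one, Matrix.cons_val, Pi.zero_apply] at h0 h1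
  refine ⟨c 0, c 1, c 2, ?_, -(g 0 • u + g 1 • v + g 2 • w), neg_mem (add_mem (add_mem
    (smul_mem_gam H.act _ hu) (smul_mem_gam H.act _ hv)) (smul_mem_gam H.act _ hw)), ?_⟩
  · rintro ⟨e0, e1, e2⟩
    fin_cases i
    exacts [hi e0, hi e1, hi e2]
  · have h2 : (C (c 0) + X * g 0) • u + (C (c 1) + X * g 1) • v + (C (c 2) + X * g 2) • w = 0 := by
      have h3 : ∀ r s t : K⟦X⟧, r • u + s • v + t • w =
          (r * f₀ + s * f₁ + t * f₂) • a + (r * g₀ + s * g₁ + t * g₂) • b := fun r s t => by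
        rw [e₀, e₁, e₂]
        simp only [smul_add, add_smul, mul_smul]
        abel
      rw [h3, h0, h1, zero_smul, zero_smul, add_zero]
    rw [← H.act, smul_neg, eq_neg_iff_add_eq_zero, ← h2]
    simp only [smul_add, add_smul, mul_smul, C_smul]
    abel

end Pool.Agent.P78
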