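import Pool.Agent.Lib.MP_78c6b1_al.U2.Defs

/-! Two consecutive supports cannot dominate each other. -/

namespace Pool.Agent.P78

open Finset

theorem num_dif {K : Type} [Field K] (s : ℕ) (g : ℕ → K) (t : ℕ) :
    dif s g t = ∑ k ∈ range (s + 1), (s.choose k : K) * ((-1) ^ k * g (t + k)) := by
  induction s generalizing t with
  | zero => simp [dif]
  | succ s ih =>
    rw [sum_choose_succ_mul (fun i _ => (-1 : K) ^ i * g (t + i)) s]
    simp only [dif, ih, sub_eq_add_neg, ← sum_neg_distrib]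
    congr 1
    refine sum_congr rfl fun k _ => ?_
    rw [show t + 1 + k = t + (k + 1) by ring]
    ring

theorem num_dif_rev {K : Type} [Field K] (s : ℕ) (g : ℕ → K) (t : ℕ) :
    dif s g t =
      (-1) ^ s * ∑ k ∈ range (s + 1), (s.choose k : K) * ((-1) ^ k * g (t + s - k)) := by
  rw [num_dif, ← sum_range_reflect, mul_sum]
  refine sum_congr rfl fun k hk => ?_
  have hk' : k ≤ s := Nat.lt_succ_iff.1 (mem_range.1 hk)
  obtain ⟨m, rfl⟩ := Nat.exists_eq_add_of_le hk'
  have e1 : k + m + 1 - 1 - k = m := by omega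
  have e2 : t + (k + m) - k = t + m := by omega
  have e3 : ((-1 : K) ^ k) * (-1) ^ k = 1 := by
    rw [← mul_pow]
    simp
  rw [e1, e2, Nat.choose_symm_add, pow_add]
  linear_combination (-((k + m).choose m : K) * (-1) ^ m * g (t + m)) * e3

theorem num_core (hB : BinStmt) {K : Type} [Field K] [CharZero K] (u : ℕ → K) (S P : Finset ℕ)
    (h1 : ∀ r ∈ S, ∀ T ∈ P, r ≤ T) (h2 : S.card ≤ P.card)
    (h3 : ∀ T ∈ P, ∀ k ≤ T, u k ≠ 0 → k ∈ S)
    (h4 : ∀ T ∈ P, ∑ k ∈ range (T + 1), (T.choose k : K) * ((-1) ^ k * u k) = 0) :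
    ∀ r ∈ S, u r = 0 := by
  intro r hr
  have := hB K S P (fun k => (-1) ^ k * u k) h1 h2 (fun T hT => ?_) r hr
  · simpa using this
  · rw [← h4 T hT, sum_subset (s₂ := range (T + 1))
      (fun k hk => mem_range.2 (Nat.lt_succ_of_le (h1 k hk T hT))) fun k hk hk' => ?_]
    · exact sum_congr rfl fun k _ => mul_comm _ _
    · have : u k = 0 := by_contra fun h => hk' (h3 T hT k (Nat.lt_succ_iff.1 (mem_range.1 hk)) h)
      simp [this]

theorem numStmt_of (hB : BinStmt) : NumStmt := by
  classical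
  intro K _ _ g h t₀ p t₃ hg hh h1 h2
  by_contra hc
  push Not at hc
  obtain ⟨⟨r₁, hr₁⟩, r₂, hr₂⟩ := hc
  have e1 := hg r₁ hr₁
  have e2 := hh r₂ hr₂
  let S₁ := (range (t₃ + 1)).filter fun r => g r ≠ 0
  let S₂ := (range (t₃ + 1)).filter fun r => h r ≠ 0
  have m1 : ∀ r, r ∈ S₁ ↔ g r ≠ 0 := fun r => by
    simp only [S₁, mem_filter, mem_range]
    exact ⟨fun h => h.2, fun h => ⟨by have := hg r h; omega, h⟩⟩
  have m2 : ∀ r, r ∈ S₂ ↔ h r ≠ 0 := fun r => by
    simp only [S₂, mem_filter, mem_range]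
    exact ⟨fun h => h.2, fun h' => ⟨by have := hh r h'; omega, h'⟩⟩
  have b1 : ∀ r ∈ S₁, t₀ ≤ r ∧ r ≤ p := fun r hr => hg r ((m1 r).1 hr)
  have b2 : ∀ r ∈ S₂, p ≤ r ∧ r ≤ t₃ := fun r hr => hh r ((m2 r).1 hr)
  rcases le_total S₁.card S₂.card with hle | hle
  · have := num_core hB (fun k => g (t₀ + k)) (S₁.image (· - t₀)) (S₂.image (· - t₀)) ?_ ?_ ?_ ?_
      (r₁ - t₀) (mem_image_of_mem _ ((m1 r₁).2 hr₁))
    · rw [show t₀ + (r₁ - t₀) = r₁ by omega] at this
      exact hr₁ this
    · simp only [forall_mem_image]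
      intro r hr T hT
      have := b1 r hr
      have := b2 T hT
      omega
    · rw [card_image_of_injOn (s := S₂) fun a ha b hb hab => ?_]
      · exact card_image_le.trans hle
      · have := b2 a ha
        have := b2 b hb
        omega
    · intro T _ k _ hk
      exact mem_image.2 ⟨t₀ + k, (m1 _).2 hk, by omega⟩
    · simp only [forall_mem_image]
      intro T hT
      rw [← num_dif]
      exact h1 T ((m2 T).1 hT)
  · have := num_core hB (fun k => h (t₃ - k)) (S₂.image (t₃ - ·)) (S₁.image (t₃ - ·)) ?_ ?_ ?_ ?_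
      (t₃ - r₂) (mem_image_of_mem _ ((m2 r₂).2 hr₂))
    · rw [show t₃ - (t₃ - r₂) = r₂ by omega] at this
      exact hr₂ this
    · simp only [forall_mem_image]
      intro r hr T hT
      have := b2 r hr
      have := b1 T hT
      omega
    · rw [card_image_of_injOn (s := S₁) fun a ha b hb hab => ?_]
      · exact card_image_le.trans hle
      · have := b1 a ha
        have := b1 b hb
        omega
    · simp only [forall_mem_image]
      intro T _ k hk hk'
      exact mem_image.2 ⟨t₃ - k, (m2 _).2 hk', by omega⟩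
    · simp only [forall_mem_image]
      intro T hT
      have h5 := h2 T ((m1 T).1 hT)
      have := b1 T hT
      rw [num_dif_rev, show T + (t₃ - T) = t₃ by omega] at h5
      simpa using h5

end Pool.Agent.P78
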