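import Mathlib

/-! Operators on a doubly filtered space and the sandwich identity. -/

namespace Pool.Agent.P78

open Module Submodule

variable {K V : Type} [Field K] [AddCommGroup V] [Module K V] {F : ℕ → ℕ → Submodule K V}

/-- Operators of bidegree `(μ, s)`. -/
def Op (F : ℕ → ℕ → Submodule K V) (μ s : ℕ) : Submodule K (End K V) where
  carrier := {φ | ∀ m t, ∀ v ∈ F m t, φ v ∈ F (m + μ) (t + s)}
  add_mem' ha hb m t v hv := add_mem (ha m t v hv) (hb m t v hv)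
  zero_mem' _ _ _ _ := zero_mem _
  smul_mem' c _ ha m t v hv := smul_mem _ c (ha m t v hv)

lemma Op.mul {μ ν ρ s r q : ℕ} {φ ψ : End K V} (h1 : φ ∈ Op F μ s) (h2 : ψ ∈ Op F ν r)
    (e1 : μ + ν = ρ) (e2 : s + r = q) : φ * ψ ∈ Op F ρ q := fun m t v hv => by
  have := h1 _ _ _ (h2 m t v hv)
  rwa [show m + ν + μ = m + ρ by omega, show t + r + s = t + q by omega] at this

lemma Op.lie {μ ν ρ s r q : ℕ} {φ ψ : End K V} (h1 : φ ∈ Op F μ s) (h2 : ψ ∈ Op F ν r)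
    (e1 : μ + ν = ρ) (e2 : s + r = q) : ⁅φ, ψ⁆ ∈ Op F ρ q :=
  sub_mem (Op.mul h1 h2 e1 e2) (Op.mul h2 h1 (by omega) (by omega))

lemma Op.up (hF : ∀ m t, F m t ≤ F (m + 1) t) {μ s : ℕ} {φ : End K V} (h : φ ∈ Op F μ s) :
    φ ∈ Op F (μ + 1) s := fun m t v hv => hF _ _ (h m t v hv)

theorem sandwich [CharZero K] (hF : ∀ m t, F m t ≤ F (m + 1) t) {X Y G : End K V}
    (hX : X ∈ Op F 0 1) (hY : Y ∈ Op F 1 1) (hG : G ∈ Op F 1 0) (hYG : Y - ⁅G, X⁆ ∈ Op F 0 1)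
    (hGY : ⁅G, Y⁆ ∈ Op F 1 1) (hGG : G * G ∈ Op F 1 0) (A B C E : ℕ → End K V) (a0 : A 0 = Y)
    (b0 : B 0 = 0) (c0 : C 0 = 0) (e0 : E 0 = G) (a1 : ∀ s, A (s + 1) = ⁅X, A s⁆)
    (b1 : ∀ s, B (s + 1) = ⁅X, B s⁆ + ⁅Y, A s⁆) (c1 : ∀ s, C (s + 1) = ⁅X, C s⁆ + ⁅Y, B s⁆)
    (e1 : ∀ s, E (s + 1) = ⁅X, E s⁆) (s : ℕ) {α β δ : K} (h0 : ¬ (α = 0 ∧ β = 0 ∧ δ = 0))
    (h : α • A s + β • B s + δ • C s ∈ Op F 0 (s + 1)) : G * E (s + 1) * G ∈ Op F 2 (s + 1) := by
  have hA : ∀ s, A s ∈ Op F 1 (s + 1) := fun s => by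
    induction s with
    | zero => rwa [a0]
    | succ s ih => exact a1 s ▸ Op.lie hX ih (by omega) (by omega)
  have hB : ∀ s, B s ∈ Op F 2 (s + 1) := fun s => by
    induction s with
    | zero => exact b0 ▸ zero_mem _
    | succ s ih => exact b1 s ▸ add_mem (Op.lie hX ih (by omega) (by omega)) (Op.lie hY (hA s) (by omega) (by omega))
  have h1 : ∀ s, A s + E (s + 1) ∈ Op F 0 (s + 1) := fun s => by
    induction s with
    | zero =>
      have e : A 0 + E (0 + 1) = Y - ⁅G, X⁆ := by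
        simp only [a0, e1, e0, Ring.lie_def]
        noncomm_ring
      rwa [e]
    | succ s ih =>
      have e : A (s + 1) + E (s + 1 + 1) = ⁅X, A s + E (s + 1)⁆ := by
        simp only [a1, e1 (s + 1), Ring.lie_def]
        noncomm_ring
      exact e ▸ Op.lie hX ih (by omega) (by omega)
  have h2 : ∀ s, B s - ⁅G, A s⁆ ∈ Op F 1 (s + 1) := fun s => by
    induction s with
    | zero => simpa [a0, b0] using hGY
    | succ s ih =>
      have e : B (s + 1) - ⁅G, A (s + 1)⁆ = ⁅X, B s - ⁅G, A s⁆⁆ + ⁅Y - ⁅G, X⁆, A s⁆ := by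
        simp only [a1, b1, Ring.lie_def]
        noncomm_ring
      exact e ▸ add_mem (Op.lie hX ih (by omega) (by omega)) (Op.lie hYG (hA s) (by omega) (by omega))
  have h3 : ∀ s, C s + C s - ⁅G, B s⁆ ∈ Op F 2 (s + 1) := fun s => by
    induction s with
    | zero => simp [b0, c0, Ring.lie_def]
    | succ s ih =>
      have e : C (s + 1) + C (s + 1) - ⁅G, B (s + 1)⁆ = ⁅X, C s + C s - ⁅G, B s⁆⁆ +
          ⁅Y - ⁅G, X⁆, B s⁆ + ⁅Y, B s - ⁅G, A s⁆⁆ - ⁅⁅G, Y⁆, A s⁆ := by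
        simp only [b1, c1, Ring.lie_def]
        noncomm_ring
      exact e ▸ sub_mem (add_mem (add_mem (Op.lie hX ih (by omega) (by omega)) (Op.lie hYG (hB s) (by omega) (by omega))) (Op.lie hY (h2 s) (by omega) (by omega)))
        (Op.lie hGY (hA s) (by omega) (by omega))
  have h4 : ⁅G, B s⁆ ∈ Op F 2 (s + 1) → G * A s * G ∈ Op F 2 (s + 1) := fun h5 => by
    have e : (2 : K) • (G * A s * G) = G * G * A s + A s * (G * G) - ⁅G, B s⁆ +
        ⁅G, B s - ⁅G, A s⁆⁆ := by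
      simp only [two_smul, Ring.lie_def]
      noncomm_ring
    refine (smul_mem_iff _ (two_ne_zero (α := K))).1 (e ▸ add_mem (sub_mem (add_mem
      (Op.mul hGG (hA s) (by omega) (by omega)) (Op.mul (hA s) hGG (by omega) (by omega))) h5) (Op.lie hG (h2 s) (by omega) (by omega)))
  have h5 : G * A s * G ∈ Op F 2 (s + 1) := by
    by_cases hδ : δ = 0
    · rw [hδ, zero_smul, add_zero] at h
      by_cases hβ : β = 0
      · rw [hβ, zero_smul, add_zero, smul_mem_iff _ fun e => h0 ⟨e, hβ, hδ⟩] at h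
        exact Op.mul (Op.mul hG h rfl rfl) hG (by omega) (by omega)
      · have h6 := sub_mem (Op.up hF h) (smul_mem _ α (hA s))
        rw [add_sub_cancel_left, smul_mem_iff _ hβ] at h6
        exact h4 (Op.lie hG h6 (by omega) (by omega))
    · have h6 := sub_mem (Op.up hF (Op.up hF h))
        (add_mem (smul_mem _ α (Op.up hF (hA s))) (smul_mem _ β (hB s)))
      rw [add_sub_cancel_left, smul_mem_iff _ hδ] at h6
      exact h4 (by simpa using sub_mem (add_mem h6 h6) (h3 s))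
  have h6 := sub_mem (Op.mul (Op.mul hG (h1 s) rfl rfl) hG (by omega) (by omega)) h5
  rwa [mul_add, add_mul, add_sub_cancel_left] at h6

end Pool.Agent.P78
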