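import Pool.Agent.Lib.MP_78c6b1_al.U2.Seq
import Pool.Agent.Lib.MP_78c6b1_al.U2.Ops
import Pool.Agent.Lib.MP_78c6b1_al.U2.Bin
import Pool.Agent.Lib.MP_78c6b1_al.U2.Num
import Pool.Agent.Lib.MP_78c6b1_al.U2.Dep

/-! Backtracking stops: some `ad x` chain is infinite. -/

namespace Pool.Agent.P78

open Module Submodule Finset

variable {K L : Type} [Field K] [LieRing L] [LieAlgebra K L] {x : L} {b i j : ℕ → ℕ}
  {c : ℕ → ℕ → L}

variable (K L) in
/-- Operators of degree `s`. -/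
def Dg (s : ℕ) : Submodule K (End K L) := Op (fun _ t => gam K L t) 0 s

lemma mem_Dg {s : ℕ} {φ : End K L} :
    φ ∈ Dg K L s ↔ ∀ t, ∀ v ∈ gam K L t, φ v ∈ gam K L (t + s) :=
  ⟨fun h => h 0, fun h _ => h⟩

lemma ad_mem_Dg {s : ℕ} {u : L} (hu : u ∈ gam K L s) : LieAlgebra.ad K L u ∈ Dg K L s :=
  mem_Dg.2 fun t _ hv => add_comm s t ▸ lie_mem_gam hu hv

lemma ad_lie' (u v : L) :
    LieAlgebra.ad K L ⁅u, v⁆ = ⁅LieAlgebra.ad K L u, LieAlgebra.ad K L v⁆ :=
  LinearMap.ext fun w => by simp [Ring.lie_def]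

lemma exists_op {ι : Type} (s : Finset ι) (deg : ι → ℕ) (hs : Set.InjOn deg s) (u d : ι → L)
    (hu : ∀ p ∈ s, u p ∈ gam K L (deg p)) (hu' : ∀ p ∈ s, u p ∉ gam K L (deg p + 1))
    (hd : ∀ p ∈ s, d p ∈ gam K L (deg p)) :
    ∃ G ∈ Dg K L 0, ∀ p ∈ s, G (u p) - d p ∈ gam K L (deg p + 1) := by
  classical
  have h1 : ∀ p ∈ s, ∃ l : L →ₗ[K] K, l (u p) = 1 ∧ ∀ v ∈ gam K L (deg p + 1), l v = 0 :=
    fun p hp => by
      obtain ⟨l, hl, hl'⟩ := (gam K L _).exists_dual_map_eq_bot_of_notMem (hu' p hp) inferInstance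
      exact ⟨(l (u p))⁻¹ • l, by simp [hl], fun v hv => by
        simp [show l v = 0 from hl'.le (mem_map_of_mem hv)]⟩
  choose! l hl hl' using h1
  have h2 : ∀ p ∈ s, ∀ t r, ∀ v ∈ gam K L t, (deg p < t ∨ r ≤ deg p) → l p v • d p ∈ gam K L r := by
    rintro p hp t r v hv (h | h)
    · simp [hl' p hp v (gam_anti h hv)]
    · exact smul_mem _ _ (gam_anti h (hd p hp))
  refine ⟨∑ p ∈ s, (l p).smulRight (d p), mem_Dg.2 fun t v hv => ?_, fun p hp => ?_⟩
  · rw [LinearMap.sum_apply]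
    exact sum_mem fun p hp => h2 p hp t _ v hv (by omega)
  · rw [LinearMap.sum_apply, ← add_sum_erase _ _ hp, LinearMap.smulRight_apply, hl p hp, one_smul,
      add_sub_cancel_left]
    refine sum_mem fun q hq => h2 q (mem_of_mem_erase hq) _ _ _ (hu p hp) ?_
    have : deg q ≠ deg p := fun e => ne_of_mem_erase hq (hs (mem_of_mem_erase hq) hp e)
    omega

/-- The first order term of `(X + τ Y) ^ m`. -/
def fst1 (X Y : End K L) : ℕ → End K L
  | 0 => 0
  | m + 1 => X * fst1 X Y m + Y * X ^ m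

lemma fst1_mem [CharZero K] {X Y : End K L} {W : Submodule K L} {m : ℕ} {v : L}
    (h : ∀ τ : K, ((X + τ • Y) ^ m) v ∈ W) : fst1 X Y m v ∈ W := by
  have h1 : ∀ m (l : L →ₗ[K] K), ∃ p : Polynomial K, (∀ τ : K, p.eval τ = l (((X + τ • Y) ^ m) v)) ∧
      p.coeff 0 = l ((X ^ m) v) ∧ p.coeff 1 = l (fst1 X Y m v) := fun m => by
    induction m with
    | zero => exact fun l => ⟨.C (l v), by simp, by simp, by simp [fst1]⟩
    | succ m ih =>
      intro l
      obtain ⟨p, p1, p2, p3⟩ := ih (l ∘ₗ X)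
      obtain ⟨q, q1, q2, -⟩ := ih (l ∘ₗ Y)
      exact ⟨p + .X * q, fun τ => by simp [p1, q1, pow_succ'], by simp [p2, pow_succ'],
        by simp [p3, q2, fst1]⟩
  by_contra hn
  obtain ⟨l, hl, hl'⟩ := W.exists_dual_map_eq_bot_of_notMem hn inferInstance
  obtain ⟨p, p1, -, p3⟩ := h1 m l
  have : p = 0 := Polynomial.funext fun τ => by
    rw [p1, Polynomial.eval_zero]
    exact hl'.le (mem_map_of_mem (h τ))
  exact hl (by simp [← p3, this])

lemma dif_eq_zero {g : ℕ → K} {s r : ℕ} (h : ∀ t, r ≤ t → t ≤ r + s → g t = 0) : dif s g r = 0 := by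
  induction s generalizing r with
  | zero => exact h r le_rfl le_rfl
  | succ s ih =>
    change dif s g r - dif s g (r + 1) = 0
    rw [ih fun t h1 h2 => h t h1 (by omega), ih fun t h1 h2 => h t (by omega) (by omega), sub_zero]

variable (K) in
/-- The filtration by the number of backtracks. -/
def bt (i : ℕ → ℕ) (c : ℕ → ℕ → L) : ℕ → ℕ → Submodule K L
  | 0, t => gam K L (t + 1)
  | n + 1, t => if t ≤ i n ∨ 4 ≤ n then gam K L t else (K ∙ c n t) ⊔ gam K L (t + 1)

lemma gam_le_bt (m t : ℕ) : gam K L (t + 1) ≤ bt K i c m t := by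
  cases m with
  | zero => exact le_rfl
  | succ n =>
    rw [bt]
    split_ifs
    exacts [gam_anti t.le_succ, le_sup_right]

lemma bt_of_le {n t : ℕ} (h : t ≤ i n ∨ 4 ≤ n) : bt K i c (n + 1) t = gam K L t := if_pos h

lemma bt_of_lt {n t : ℕ} (h : i n < t) (h' : n < 4) :
    bt K i c (n + 1) t = (K ∙ c n t) ⊔ gam K L (t + 1) := if_neg (by omega)

namespace Seq

variable (S : Seq K x b i j c)
include S

lemma bt_le (m t : ℕ) : bt K i c m t ≤ gam K L t := by
  cases m with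
  | zero => exact gam_anti t.le_succ
  | succ n =>
    rw [bt]
    split_ifs with h
    exacts [le_rfl, sup_le ((span_singleton_le_iff_mem _ _).2
      (S.mem n t (by have := S.b_le n; omega))) (gam_anti t.le_succ)]

lemma dead' {n t : ℕ} (h : j n ≤ t) : c n t ∈ gam K L (t + 1) := by
  induction t, h using Nat.le_induction with
  | base => exact S.dead n
  | succ t h ih =>
    exact S.lie n t (((S.b_le n).trans (S.lt n).le).trans h) ▸ lie_mem_gam_succ x ih

lemma bt_le' {n t : ℕ} (h : i n ≤ t) (h' : n < 4) :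
    bt K i c (n + 1) t ≤ (K ∙ c n t) ⊔ gam K L (t + 1) := by
  obtain rfl | h := h.eq_or_lt
  · intro u hu
    obtain ⟨κ, hκ⟩ := S.one n u (S.bt_le _ _ hu)
    rw [← add_sub_cancel (κ • c n (i n)) u]
    exact add_mem_sup (smul_mem _ _ (mem_span_singleton_self _)) hκ
  · exact (bt_of_lt h h').le

lemma op_one {s : ℕ} (hs : s ≤ 1) {φ : End K L} (h : φ ∈ Dg K L s) : φ ∈ Op (bt K i c) 1 s := by
  intro m t v hv
  by_cases h1 : t + s ≤ i m ∨ 4 ≤ m
  · exact (bt_of_le h1).ge (mem_Dg.1 h t v (S.bt_le _ _ hv))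
  refine gam_le_bt _ _ (add_right_comm t 1 s ▸ mem_Dg.1 h (t + 1) v ?_)
  cases m with
  | zero => exact hv
  | succ n =>
    have := S.lt n
    have := S.le n
    exact sup_le ((span_singleton_le_iff_mem _ _).2 (S.dead' (by omega))) le_rfl
      (S.bt_le' (by omega) (by omega) hv)

lemma op_zero {s : ℕ} {φ : End K L} (h : φ ∈ Dg K L (s + 1)) : φ ∈ Op (bt K i c) 0 s :=
  fun _ t v hv => gam_le_bt _ _ (mem_Dg.1 h t v (S.bt_le _ _ hv))

lemma op_zero' {φ : End K L} (h : φ ∈ Dg K L 1) (h' : ∀ n < 4, ∀ t, i n ≤ t →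
    φ (c n t) ∈ (K ∙ c n (t + 1)) ⊔ gam K L (t + 2)) : φ ∈ Op (bt K i c) 0 1 := by
  intro m t v hv
  cases m with
  | zero => exact mem_Dg.1 h _ v hv
  | succ n =>
    by_cases h1 : t + 1 ≤ i n ∨ 4 ≤ n
    · exact (bt_of_le h1).ge (mem_Dg.1 h t v (S.bt_le _ _ hv))
    rw [add_zero, bt_of_lt (by omega) (by omega)]
    exact sup_le (c := comap φ ((K ∙ c n (t + 1)) ⊔ gam K L (t + 2))) ((span_singleton_le_iff_mem _ _).2 (h' n (by omega) t (by omega)))
      (fun u hu => mem_sup_right (mem_Dg.1 h _ u hu)) (S.bt_le' (by omega) (by omega) hv)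

lemma bt_mono (m t : ℕ) : bt K i c m t ≤ bt K i c (m + 1) t :=
  S.op_one (φ := 1) zero_le_one (mem_Dg.2 fun _ _ h => h) m t

lemma mem_bt {n t : ℕ} (h : b n ≤ t) : c n t ∈ bt K i c (n + 1) t := by
  rw [bt]
  split_ifs
  exacts [S.mem n t h, mem_sup_left (mem_span_singleton_self _)]

lemma ad_op : LieAlgebra.ad K L x ∈ Op (bt K i c) 0 1 :=
  S.op_zero' (ad_mem_Dg trivial) fun n _ t ht =>
    mem_sup_left (S.lie n t ((S.b_le n).trans ht) ▸ mem_span_singleton_self _)

lemma indep (h : Lim K L) {n t : ℕ} (h1 : i n < t) (h2 : t ≤ j n) :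
    c (n + 1) t ∉ (K ∙ c n t) ⊔ gam K L (t + 1) := by
  induction h2 using Nat.decreasingInduction with
  | self =>
    intro h3
    obtain ⟨m, hm⟩ : ∃ m, j n = m + 1 := ⟨j n - 1, by omega⟩
    refine h.ne m fun u hu => ?_
    obtain ⟨κ, κ', h4⟩ := S.two n _ h1 le_rfl u (hm ▸ hu)
    have h5 := sup_le ((span_singleton_le_iff_mem _ _).2 (S.dead n)) le_rfl h3
    simpa [hm] using add_mem (add_mem h4 (smul_mem _ κ' (S.dead n))) (smul_mem _ κ h5)
  | of_succ k hk ih =>
    intro h3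
    refine ih (by omega) ?_
    obtain ⟨_, h4, w, hw, e⟩ := mem_sup.1 h3
    obtain ⟨κ, rfl⟩ := mem_span_singleton.1 h4
    rw [← S.lie (n + 1) k (S.b_succ n ▸ h1), ← e, lie_add, lie_smul,
      S.lie n k ((S.b_le n).trans h1.le)]
    exact add_mem_sup (smul_mem _ _ (mem_span_singleton_self _)) (lie_mem_gam_succ x hw)

lemma exists_y [Uncountable K] (h : Lim K L) :
    ∃ y : L, ∀ n, ⁅y, c n (i n)⁆ ∉ (K ∙ c n (i n + 1)) ⊔ gam K L (i n + 2) := by
  obtain ⟨y, -, hy, -⟩ := h.generic (U := ⊤) ⟨0, le_top⟩ (fun n y => ⁅y, c n (i n)⁆)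
    (fun n => polyMap_id.lie h (polyMap_const _))
    (fun n => (K ∙ c n (i n + 1)) ⊔ gam K L (i n + 2)) (fun n => ⟨_, le_sup_right⟩) fun n => by
      by_contra! hn
      obtain ⟨m, hm⟩ : ∃ m, i n = m + 1 :=
        ⟨i n - 1, by have := S.two_le n; have := S.b_le n; omega⟩
      have h1 : gam K L (m + 2) ≤ (K ∙ c n (i n + 1)) ⊔ gam K L (i n + 2) :=
        gam_succ_le.2 fun u v hv => by
          obtain ⟨κ, hκ⟩ := S.one n v (hm ▸ hv)
          simpa using add_mem (mem_sup_right (lie_mem_gam_succ u hκ)) (smul_mem _ κ (hn u trivial))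
      exact S.indep h (Nat.lt_succ_self _) (S.lt n)
        (h1 (by simpa [hm] using S.mem (n + 1) (i n + 1) (S.b_succ n).le))
  exact ⟨y, hy⟩

lemma pow_c {n t : ℕ} (h : b n ≤ t) (k : ℕ) : (LieAlgebra.ad K L x ^ k) (c n t) = c n (t + k) := by
  induction k with
  | zero => rfl
  | succ k ih => rw [ad_pow_succ, ih, S.lie n _ (by omega), add_assoc]

lemma exists_G [CharZero K] (hg : Gen K x) (y : L) : ∃ G ∈ Dg K L 0,
    LieAlgebra.ad K L y - ⁅G, LieAlgebra.ad K L x⁆ ∈ Op (bt K i c) 0 1 ∧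
    ∀ n < 4, G (c n (i n + 1)) - ⁅y, c n (i n)⁆ ∈ gam K L (i n + 2) := by
  classical
  let d := fun n k => fst1 (LieAlgebra.ad K L x) (LieAlgebra.ad K L y) k (c n (i n))
  have d1 : ∀ n k, d n (k + 1) = ⁅x, d n k⁆ + ⁅y, c n (i n + k)⁆ := fun n k => by
    simp [d, fst1, S.pow_c (S.b_le n)]
  have d2 : ∀ n k, d n k ∈ gam K L (i n + k) := fun n k => by
    induction k with
    | zero => exact zero_mem _
    | succ k ih =>
      exact d1 n k ▸ add_mem (lie_mem_gam_succ x ih)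
        (lie_mem_gam_succ y (S.mem n _ ((S.b_le n).trans (Nat.le_add_right _ _))))
  have hji : ∀ n m, n < m → j n ≤ i m := fun n m h => by
    induction m, h using Nat.le_induction with
    | base => exact S.le n
    | succ m _ ih => exact ih.trans ((S.lt m).le.trans (S.le m))
  obtain ⟨G, hG, H⟩ := exists_op (K := K) ((range 4).sigma fun n => range (j n - i n))
    (fun p => i p.1 + p.2) (by
      rintro ⟨n, k⟩ h1 ⟨m, l⟩ h2 e
      simp only [coe_sigma, Set.mem_sigma_iff, mem_coe, mem_range] at h1 h2 e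
      obtain rfl : n = m := by
        have := hji n m
        have := hji m n
        omega
      obtain rfl : k = l := by omega
      rfl) (fun p => c p.1 (i p.1 + p.2)) (fun p => d p.1 p.2)
    (fun p _ => S.mem _ _ ((S.b_le _).trans (Nat.le_add_right _ _)))
    (fun p hp => S.alive _ _ ((S.b_le _).trans (Nat.le_add_right _ _)) (by
      simp only [mem_sigma, mem_range] at hp
      omega)) fun p _ => d2 _ _
  have H' : ∀ n < 4, ∀ k, i n + k ≤ j n → G (c n (i n + k)) - d n k ∈ gam K L (i n + k + 1) :=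
    fun n hn k hk => by
      obtain e | hk := hk.eq_or_lt
      · refine sub_mem (mem_Dg.1 hG _ _ (S.dead' e.ge)) (fst1_mem fun τ => ?_)
        have := hg.pow (i n) k (fun v hv => ?_) (x + τ • y) _ (S.mem n _ (S.b_le n))
        · simpa using this
        · obtain ⟨κ, hκ⟩ := S.one n v hv
          have h1 := ad_pow_mem (x := x) (k := k) (m := i n + k + 1) hκ (by omega)
          rw [map_sub, map_smul, S.pow_c (S.b_le n)] at h1
          simpa using add_mem h1 (smul_mem _ κ (S.dead' e.ge))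
      · exact H ⟨n, k⟩ (by simp only [mem_sigma, mem_range]; omega)
  have hφ : LieAlgebra.ad K L y - ⁅G, LieAlgebra.ad K L x⁆ ∈ Dg K L 1 :=
    sub_mem (ad_mem_Dg trivial) (Op.lie hG (ad_mem_Dg (s := 1) trivial) (by omega) (by omega))
  refine ⟨G, hG, S.op_zero' hφ fun n hn t ht => mem_sup_right ?_, fun n hn => ?_⟩
  · by_cases h : j n ≤ t
    · exact mem_Dg.1 hφ _ _ (S.dead' h)
    obtain ⟨k, rfl⟩ := Nat.exists_eq_add_of_le ht
    have h1 := sub_mem (lie_mem_gam_succ x (H' n hn k (by omega))) (H' n hn (k + 1) (by omega))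
    rw [d1, ← add_assoc, ← S.lie n _ ((S.b_le n).trans ht), lie_sub] at h1
    exact (congrArg (· ∈ _) (by simp [Ring.lie_def]; abel)).mpr h1
  · simpa [d1, d, fst1] using H' n hn 1 (S.lt n)

lemma exists_g {G : End K L} (hG : G ∈ Dg K L 0) (n r : ℕ) : ∃ κ : K, (κ ≠ 0 → i n < r ∧ r < j n) ∧
    (n < 4 → b n ≤ r → G (c n r) - κ • c (n + 1) r ∈ bt K i c (n + 1) r) := by
  by_cases h : i n < r ∧ r < j n
  · obtain ⟨κ, κ', h1⟩ := S.two n r h.1 h.2.le _ (mem_Dg.1 hG r _ (S.mem n r ((S.b_le n).trans h.1.le)))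
    exact ⟨κ, fun _ => h, fun _ hr => by
      simpa using add_mem (gam_le_bt _ _ h1) (smul_mem _ κ' (S.mem_bt hr))⟩
  refine ⟨0, fun e => absurd rfl e, fun _ hr => ?_⟩
  rw [zero_smul, sub_zero]
  by_cases h1 : r ≤ i n
  · exact (bt_of_le (.inl h1)).ge (mem_Dg.1 hG r _ (S.mem n r hr))
  · exact gam_le_bt _ _ (mem_Dg.1 hG _ _ (S.dead' (by omega)))

theorem false [CharZero K] [Uncountable K] (h : Lim K L) (hg : Gen K x) (hd : Dep K x) : False := by
  obtain ⟨y, hy⟩ := S.exists_y h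
  obtain ⟨G, hG, h1, h2⟩ := S.exists_G hg y
  choose g g1 g2 using S.exists_g hG
  have hb := S.b_le
  have hs := S.b_succ
  have hlt := S.lt
  have hle := S.le
  have g3 : ∀ n < 4, g n (i n + 1) ≠ 0 := fun n hn e => hy n (by
    have h3 := g2 n _ hn ((hb n).trans (Nat.le_succ _))
    rw [e, zero_smul, sub_zero, bt_of_lt (Nat.lt_succ_self _) hn] at h3
    simpa using sub_mem h3 (mem_sup_right (h2 n hn)))
  have hG1 := S.op_one zero_le_one hG
  let E : ℕ → End K L := fun s => Nat.rec G (fun _ φ => ⁅LieAlgebra.ad K L x, φ⁆) s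
  have e1 : ∀ s, E s ∈ Op (bt K i c) 1 s := fun s => by
    induction s with
    | zero => exact hG1
    | succ s ih => exact Op.lie S.ad_op ih (by omega) (by omega)
  have e2 : ∀ n < 4, ∀ s r, b n ≤ r →
      E s (c n r) - dif s (g n) r • c (n + 1) (r + s) ∈ bt K i c (n + 1) (r + s) := fun n hn s => by
    induction s with
    | zero => exact fun r => g2 n r hn
    | succ s ih =>
      intro r hr
      have h3 := S.ad_op _ _ _ (ih r hr)
      have h4 := ih (r + 1) (by omega)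
      have h5 : dif s (g n) r • ⁅x, c (n + 1) (r + s)⁆ = dif s (g n) r • c (n + 1) (r + s + 1) := by
        by_cases h6 : b (n + 1) ≤ r + s
        · rw [S.lie _ _ h6]
        · rw [dif_eq_zero fun t _ _ => by_contra fun e => by have := g1 n t e; have := hs n; omega,
            zero_smul, zero_smul]
      rw [add_right_comm, ← S.lie n r hr] at h4
      rw [map_sub, map_smul, LieAlgebra.ad_apply, LieAlgebra.ad_apply, h5] at h3
      exact (congrArg (· ∈ _) (by simp [E, dif, Ring.lie_def, sub_smul, add_assoc]; abel)).mpr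
        (sub_mem h3 h4)
  let w : ℕ → L × L × L := fun s => Nat.rec (y, 0, 0)
    (fun _ p => (⁅x, p.1⁆, ⁅x, p.2.1⁆ + ⁅y, p.1⁆, ⁅x, p.2.2⁆ + ⁅y, p.2.1⁆)) s
  have w1 : ∀ s, (w s).1 ∈ gam K L (s + 1) ∧ (w s).2.1 ∈ gam K L (s + 1) ∧
      (w s).2.2 ∈ gam K L (s + 1) := fun s => by
    induction s with
    | zero => exact ⟨trivial, trivial, trivial⟩
    | succ s ih =>
      exact ⟨lie_mem_gam_succ x ih.1, add_mem (lie_mem_gam_succ x ih.2.1) (lie_mem_gam_succ y ih.1),
        add_mem (lie_mem_gam_succ x ih.2.2) (lie_mem_gam_succ y ih.2.1)⟩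
  have e3 : ∀ s, 2 ≤ s → G * E s * G ∈ Op (bt K i c) 2 s := fun s hs => by
    obtain ⟨s, rfl⟩ : ∃ m, s = m + 1 := ⟨s - 1, by omega⟩
    obtain ⟨α, β, δ, h0, z, hz, e⟩ := hd _ hs _ (w1 s).1 _ (w1 s).2.1 _ (w1 s).2.2
    refine sandwich S.bt_mono S.ad_op (S.op_one le_rfl (ad_mem_Dg trivial)) hG1 h1
      (S.op_one le_rfl (Op.lie hG (ad_mem_Dg (s := 1) trivial) (by omega) (by omega)))
      (S.op_one zero_le_one (Op.mul hG hG (by omega) (by omega))) (fun s => LieAlgebra.ad K L (w s).1)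
      (fun s => LieAlgebra.ad K L (w s).2.1) (fun s => LieAlgebra.ad K L (w s).2.2) E rfl
      (map_zero _) (map_zero _) rfl (fun s => ad_lie' _ _) (fun s => ?_) (fun s => ?_)
      (fun _ => rfl) s h0 ?_
    · exact (map_add _ _ _).trans (by rw [ad_lie', ad_lie'])
    · exact (map_add _ _ _).trans (by rw [ad_lie', ad_lie'])
    · simpa [← e] using S.op_zero (ad_mem_Dg (lie_mem_gam_succ x hz))
  have key : ∀ n < 2, ∀ t r, g n t ≠ 0 → g (n + 2) r ≠ 0 → dif (r - t) (g (n + 1)) t = 0 :=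
    fun n hn t r ht hr => by
      have a1 := g1 n t ht
      have a2 := g1 _ r hr
      have := hb n
      have := hs n
      have := hs (n + 1)
      have := hle n
      have := hlt (n + 1)
      have : j (n + 1) ≤ i (n + 2) := hle (n + 1)
      have := hb (n + 2)
      obtain ⟨s, rfl⟩ : ∃ s, r = t + s := ⟨r - t, by omega⟩
      rw [Nat.add_sub_cancel_left]
      have h3 := e3 s (by omega) _ _ _ (S.mem_bt (n := n) (t := t) (by omega))
      have h4 := Op.mul hG1 (e1 s) rfl (zero_add s) _ _ _ (g2 n t (by omega) (by omega))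
      have h5 := hG1 _ _ _ (e2 (n + 1) (by omega) s t (by omega))
      have h6 := g2 (n + 2) (t + s) (by omega) (by omega)
      have h7 := sub_mem (sub_mem (sub_mem h3 h4) (smul_mem _ (g n t) h5))
        (smul_mem _ (g n t * dif s (g (n + 1)) t) h6)
      have h8 : (g n t * dif s (g (n + 1)) t * g (n + 2) (t + s)) • c (n + 3) (t + s) ∈
          bt K i c (n + 3) (t + s) :=
        (congrArg (· ∈ _) (by simp [smul_sub, mul_smul])).mpr h7
      by_contra h0
      rw [smul_mem_iff _ (mul_ne_zero (mul_ne_zero ht h0) hr), bt_of_lt a2.1 (by omega)] at h8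
      exact S.indep h a2.1 a2.2.le h8
  have := hlt 0
  have := hlt 2
  have : j 0 ≤ i 1 := hle 0
  have : j 1 ≤ i 2 := hle 1
  have : j 2 ≤ i 3 := hle 2
  obtain e | e := numStmt_of binStmt K (g 1) (g 2) (i 0 + 1) (i 2) (i 3 + 1)
    (fun r hr => by have := g1 1 r hr; omega) (fun r hr => by have := g1 2 r hr; omega)
    (fun t ht => key 0 (by omega) _ t (g3 0 (by omega)) ht)
    (fun t ht => key 1 (by omega) t _ ht (g3 3 (by omega)))
  exacts [g3 1 (by omega) (e _), g3 2 (by omega) (e _)]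

end Seq

theorem u2Stmt : U2Stmt := fun K L _ _ _ _ _ _ _ x a b H => by
  by_contra hc
  have hd : Dep K x := depStmt K L x a b H.tgen
  obtain ⟨_, _, _, _, S⟩ := exists_seq H.lim hd hc
  exact S.false H.lim H.gen hd

end Pool.Agent.P78
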