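import Pool.Agent.Lib.MP_78c6b1_al.Lim.R2Defs

/-! Statements used in the proof that backtracking stops. -/

namespace Pool.Agent.P78

open PowerSeries

/-- Iterated differences. -/
def dif {K : Type} [Field K] : ℕ → (ℕ → K) → ℕ → K
  | 0, g => g
  | s + 1, g => fun r => dif s g r - dif s g (r + 1)

/-- Binomial matrices below the diagonal are nonsingular. -/
def BinStmt : Prop :=
  ∀ (K : Type) [Field K] [CharZero K] (S P : Finset ℕ) (a : ℕ → K), (∀ r ∈ S, ∀ T ∈ P, r ≤ T) →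
    S.card ≤ P.card → (∀ T ∈ P, ∑ r ∈ S, a r * (T.choose r : K) = 0) → ∀ r ∈ S, a r = 0

/-- Two consecutive supports cannot dominate each other. -/
def NumStmt : Prop :=
  ∀ (K : Type) [Field K] [CharZero K] (g h : ℕ → K) (t₀ p t₃ : ℕ),
    (∀ r, g r ≠ 0 → t₀ ≤ r ∧ r ≤ p) → (∀ r, h r ≠ 0 → p ≤ r ∧ r ≤ t₃) →
    (∀ t, h t ≠ 0 → dif (t - t₀) g t₀ = 0) → (∀ t, g t ≠ 0 → dif (t₃ - t) h t = 0) →
    (∀ r, g r = 0) ∨ ∀ r, h r = 0

/-- The terms of the lower central series have two generators over the power series ring. -/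
def DepStmt : Prop :=
  ∀ (K L : Type) [Field K] [LieRing L] [LieAlgebra K L] [Module K⟦X⟧ L] [IsScalarTower K K⟦X⟧ L]
    (x a b : L), TGen K x a b → ∀ n, 2 ≤ n → ∀ u ∈ gam K L n, ∀ v ∈ gam K L n, ∀ w ∈ gam K L n,
      ∃ α β δ : K, ¬ (α = 0 ∧ β = 0 ∧ δ = 0) ∧ ∃ z ∈ gam K L n, α • u + β • v + δ • w = ⁅x, z⁆

end Pool.Agent.P78
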