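import Pool.Agent.Lib.MP_78c6b1_al.U2.Defs

/-! The sequence of backtracks. -/

namespace Pool.Agent.P78

open Module Submodule

variable {K L : Type} [Field K] [LieRing L] [LieAlgebra K L] {x : L}

variable (K) in
/-- Three elements of a term of the lower central series are dependent modulo `ad x`. -/
def Dep (x : L) : Prop := ∀ n, 2 ≤ n → ∀ u ∈ gam K L n, ∀ v ∈ gam K L n, ∀ w ∈ gam K L n,
  ∃ α β δ : K, ¬ (α = 0 ∧ β = 0 ∧ δ = 0) ∧ ∃ z ∈ gam K L n, α • u + β • v + δ • w = ⁅x, z⁆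

lemma ad_pow_succ (k : ℕ) (v : L) :
    (LieAlgebra.ad K L x ^ (k + 1)) v = ⁅x, (LieAlgebra.ad K L x ^ k) v⁆ := by
  rw [pow_succ']; rfl

lemma ad_pow_add (k l : ℕ) (v : L) : (LieAlgebra.ad K L x ^ (k + l)) v =
    (LieAlgebra.ad K L x ^ k) ((LieAlgebra.ad K L x ^ l) v) := by
  rw [pow_add]; rfl

lemma ad_pow_mem {n m k : ℕ} {v : L} (hv : v ∈ gam K L n) (e : n + k = m) :
    (LieAlgebra.ad K L x ^ k) v ∈ gam K L m := e ▸ ad_pow_mem_gam x k hv

lemma exists_death (h : Lim K L) (hc : ¬ Chain K x) (m : ℕ) :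
    ∃ k, ∀ v ∈ gam K L m, (LieAlgebra.ad K L x ^ k) v ∈ gam K L (m + k + 1) := by
  have := h.fin (m + 1)
  obtain ⟨e, he, he'⟩ := exists_fin_span (gam K L m) (gam K L (m + 1))
  simp only [Chain, not_exists, not_and, not_forall, not_not] at hc
  choose k hk using fun j => hc m (e j) (he j)
  refine ⟨∑ j, k j, fun v hv => ?_⟩
  refine (he'.trans (sup_le (c := (gam K L (m + ∑ j, k j + 1)).comap
    (LieAlgebra.ad K L x ^ ∑ j, k j)) (fun u hu => ad_pow_mem hu (by omega)) (span_le.2 ?_))) hv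
  rintro _ ⟨j, rfl⟩
  obtain ⟨l, hl⟩ := Nat.exists_eq_add_of_le' (Finset.single_le_sum (f := k)
    (fun _ _ => Nat.zero_le _) (Finset.mem_univ j))
  change (LieAlgebra.ad K L x ^ _) _ ∈ gam K L _
  rw [hl, ad_pow_add]
  exact ad_pow_mem (hk j) (by omega)

variable (K) in
/-- One backtrack after the level `m`. -/
structure Blk (x : L) (m i j : ℕ) (z : L) : Prop where
  le : m ≤ i
  lt : i < j
  mem : z ∈ gam K L (i + 1)
  dead : ∀ e ∈ gam K L i, (LieAlgebra.ad K L x ^ (j - i)) e ∈ gam K L (j + 1)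
  alive : ∃ v ∈ gam K L m, (LieAlgebra.ad K L x ^ (j - 1 - m)) v ∉ gam K L j
  one : ∀ u ∈ gam K L i, ∀ v ∈ gam K L i, v ∉ gam K L (i + 1) → ∃ κ : K, u - κ • v ∈ gam K L (i + 1)
  two : ∀ k, i + 1 + k ≤ j → ∀ u ∈ gam K L (i + 1 + k), ∃ κ : K, ∃ e ∈ gam K L i,
    u - κ • (LieAlgebra.ad K L x ^ k) z - (LieAlgebra.ad K L x ^ (k + 1)) e ∈ gam K L (i + 1 + k + 1)

lemma exists_blk (h : Lim K L) (hd : Dep K x) (hc : ¬ Chain K x) (m : ℕ) (hm : 2 ≤ m) :
    ∃ i j z, Blk K x m i j z := by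
  classical
  let B := fun t => ∃ z ∈ gam K L (t + 1), ∀ v ∈ gam K L t, z - ⁅x, v⁆ ∉ gam K L (t + 2)
  have hk := Nat.find_spec (exists_death h hc m)
  have hk' := fun l => Nat.find_min (exists_death h hc m) (m := l)
  generalize Nat.find (exists_death h hc m) = k at hk hk'
  simp only [not_forall] at hk'
  have h1 : ∃ t, m ≤ t ∧ t < m + k ∧ B t := by
    by_contra! hn
    have h2 : ∀ l ≤ k, ∀ u ∈ gam K L (m + l), ∃ v ∈ gam K L m,
        u - (LieAlgebra.ad K L x ^ l) v ∈ gam K L (m + l + 1) := fun l hl => by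
      induction l with
      | zero => exact fun u hu => ⟨u, hu, by simp⟩
      | succ l ih =>
        intro u hu
        have h3 := hn (m + l) (by omega) (by omega)
        simp only [B, not_exists, not_and, not_forall, not_not] at h3
        obtain ⟨w, hw, h4⟩ := h3 u hu
        obtain ⟨v, hv, h5⟩ := ih (by omega) w hw
        exact ⟨v, hv, by simpa [ad_pow_succ, add_assoc] using add_mem h4 (lie_mem_gam_succ x h5)⟩
    obtain ⟨n, hn⟩ : ∃ n, m + k = n + 1 := ⟨m + k - 1, by omega⟩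
    refine h.ne n fun u hu => ?_
    obtain ⟨v, hv, h3⟩ := h2 k le_rfl u (hn ▸ hu)
    simpa [hn] using add_mem h3 (hk v hv)
  obtain ⟨t, t1, t2, t3⟩ := h1
  have i1 := Nat.le_findGreatest (P := B) (Nat.le_sub_one_of_lt t2) t3
  have i2 := Nat.findGreatest_le (P := B) (m + k - 1)
  have i3 := fun s => Nat.findGreatest_is_greatest (P := B) (n := m + k - 1) (k := s)
  obtain ⟨z, hz, hz'⟩ := Nat.findGreatest_spec (P := B) (Nat.le_sub_one_of_lt t2) t3
  generalize Nat.findGreatest B (m + k - 1) = i at i1 i2 i3 hz hz'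
  have hz0 : ∀ (δ : K), ∀ w ∈ gam K L i, δ • z - ⁅x, w⁆ ∈ gam K L (i + 2) → δ = 0 := fun δ w hw e => by
    by_contra hδ
    exact hz' _ (smul_mem _ δ⁻¹ hw) (by simpa [smul_sub, hδ] using smul_mem _ δ⁻¹ e)
  have hzi := gam_anti i.le_succ hz
  have one : ∀ u ∈ gam K L i, ∀ v ∈ gam K L i, v ∉ gam K L (i + 1) →
      ∃ κ : K, u - κ • v ∈ gam K L (i + 1) := fun u hu v hv hv' => by
    obtain ⟨α, β, δ, h0, w, hw, e⟩ := hd i (by omega) u hu v hv z hzi
    have h2 : α • u + β • v ∈ gam K L (i + 1) := by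
      simpa [← e] using sub_mem (lie_mem_gam_succ x hw) (smul_mem _ δ hz)
    have hα : α ≠ 0 := by
      rintro rfl
      have hβ : β = 0 := by_contra fun hβ => hv' (by simpa [smul_mem_iff _ hβ] using h2)
      exact h0 ⟨rfl, hβ, hz0 δ w hw (by simp [← e, hβ])⟩
    exact ⟨-(α⁻¹ * β), by simpa [mul_smul, hα] using smul_mem _ α⁻¹ h2⟩
  obtain ⟨v, hv, hv'⟩ := hk' (i - m) (by omega)
  rw [show m + (i - m) = i by omega] at hv'
  have hv0 : (LieAlgebra.ad K L x ^ (i - m)) v ∈ gam K L i := ad_pow_mem hv (by omega)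
  refine ⟨i, m + k, z, by omega, by omega, hz, fun e he => ?_, ?_, one, fun l hl => ?_⟩
  · obtain ⟨κ, hκ⟩ := one e he _ hv0 hv'
    have h2 := hk v hv
    rw [show k = m + k - i + (i - m) by omega, ad_pow_add,
      show m + (m + k - i + (i - m)) = m + k by omega] at h2
    simpa using add_mem (ad_pow_mem (x := x) (k := m + k - i) (m := m + k + 1) hκ (by omega)) (smul_mem _ κ h2)
  · obtain ⟨w, hw, hw'⟩ := hk' (k - 1) (by omega)
    exact ⟨w, hw, by rwa [show m + k - 1 - m = k - 1 by omega, ← show m + (k - 1) + 1 = m + k by omega]⟩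
  · induction l with
    | zero =>
      intro u hu
      obtain ⟨α, β, δ, h0, w, hw, e⟩ := hd i (by omega) u (gam_anti i.le_succ hu) z hzi _ hv0
      have hδ : δ = 0 := by_contra fun hδ => hv' ((smul_mem_iff _ hδ).1 (by
        simpa [← e] using sub_mem (lie_mem_gam_succ x hw)
          (add_mem (smul_mem _ α hu) (smul_mem _ β hz))))
      have hα : α ≠ 0 := by
        rintro rfl
        exact h0 ⟨rfl, hz0 β w hw (by simp [← e, hδ]), hδ⟩
      exact ⟨-(α⁻¹ * β), _, smul_mem _ α⁻¹ hw, by simp [← e, hδ, hα, mul_smul]⟩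
    | succ l ih =>
      intro u hu
      have h3 := i3 (i + 1 + l) (by omega) (by omega)
      simp only [B, not_exists, not_and, not_forall, not_not] at h3
      obtain ⟨w, hw, h4⟩ := h3 u hu
      obtain ⟨κ, e, he, h5⟩ := ih (by omega) w hw
      refine ⟨κ, e, he, ?_⟩
      have h6 := add_mem h4 (lie_mem_gam_succ x h5)
      rw [lie_sub, lie_sub, lie_smul, ← ad_pow_succ, ← ad_pow_succ] at h6
      exact (congrArg (· ∈ _) (by abel)).mpr h6

variable (K) in
/-- The chains `c n` and the backtracks `(i n, j n)`. -/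
structure Seq (x : L) (b i j : ℕ → ℕ) (c : ℕ → ℕ → L) : Prop where
  two_le : ∀ n, 2 ≤ b n
  b_le : ∀ n, b n ≤ i n
  b_succ : ∀ n, b (n + 1) = i n + 1
  lt : ∀ n, i n < j n
  le : ∀ n, j n ≤ i (n + 1)
  mem : ∀ n t, b n ≤ t → c n t ∈ gam K L t
  lie : ∀ n t, b n ≤ t → ⁅x, c n t⁆ = c n (t + 1)
  alive : ∀ n t, b n ≤ t → t < j n → c n t ∉ gam K L (t + 1)
  dead : ∀ n, c n (j n) ∈ gam K L (j n + 1)
  one : ∀ n, ∀ u ∈ gam K L (i n), ∃ κ : K, u - κ • c n (i n) ∈ gam K L (i n + 1)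
  two : ∀ n t, i n < t → t ≤ j n → ∀ u ∈ gam K L t, ∃ κ κ' : K,
    u - κ • c (n + 1) t - κ' • c n t ∈ gam K L (t + 1)

lemma exists_seq (h : Lim K L) (hd : Dep K x) (hc : ¬ Chain K x) : ∃ b i j c, Seq K x b i j c := by
  choose! I J Z H using exists_blk h hd hc
  let m : ℕ → ℕ := fun n => J^[n] 2
  have hm : ∀ n, m (n + 1) = J (m n) := fun n => Function.iterate_succ_apply' _ _ _
  have h2 : ∀ n, 2 ≤ m n := fun n => by
    induction n with
    | zero => exact le_rfl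
    | succ n ih => exact hm n ▸ (ih.trans (H _ ih).le).trans (H _ ih).lt.le
  replace H := fun n => H _ (h2 n)
  have hle := fun n => (H n).le
  have hlt := fun n => (H n).lt
  let c := fun n t => (LieAlgebra.ad K L x ^ (t - (I (m n) + 1))) (Z (m n))
  have hmem : ∀ n t, I (m n) + 1 ≤ t → c n t ∈ gam K L t := fun n t ht => ad_pow_mem (H n).mem (by omega)
  have hadd : ∀ n t s, I (m n) + 1 ≤ t → t ≤ s → (LieAlgebra.ad K L x ^ (s - t)) (c n t) = c n s :=
    fun n t s h1 h2 => by rw [← ad_pow_add, show s - t + (t - (I (m n) + 1)) = s - (I (m n) + 1) by omega]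
  have hal : ∀ n t, I (m n) + 1 ≤ t → t < J (m (n + 1)) → c n t ∉ gam K L (t + 1) :=
    fun n t h1 h3 h4 => by
      obtain ⟨v, hv, hv'⟩ := (H (n + 1)).alive
      have := hm n
      have := hle (n + 1)
      have := hlt (n + 1)
      have := hlt n
      obtain ⟨l, hl⟩ : ∃ l, J (m n) = I (m n) + 1 + l := ⟨J (m n) - (I (m n) + 1), by omega⟩
      obtain ⟨κ, e, he, h5⟩ := (H n).two l hl.ge v (by rwa [← hl, ← hm])
      have h6 := (H n).dead e he
      rw [show J (m n) - I (m n) = l + 1 by omega, hl] at h6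
      have h7 := add_mem h5 h6
      rw [sub_add_cancel, show l = m (n + 1) - (I (m n) + 1) by omega] at h7
      have h8 := ad_pow_mem (x := x) (k := J (m (n + 1)) - 1 - m (n + 1)) (m := J (m (n + 1))) h7 (by omega)
      have h9 := ad_pow_mem (x := x) (k := J (m (n + 1)) - 1 - t) (m := J (m (n + 1))) h4 (by omega)
      rw [hadd n t _ h1 (by omega)] at h9
      rw [map_sub, map_smul, hadd n _ _ (by omega) (by omega)] at h8
      exact hv' (by simpa using add_mem h8 (smul_mem _ κ h9))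
  have hb : ∀ n, I (m n) + 1 ≤ I (m (n + 1)) := fun n => (hlt n).trans_le (hm n ▸ hle (n + 1))
  have hone := fun n u hu => (H (n + 1)).one u hu _ (hmem n _ (hb n)) (hal n _ (hb n) (hlt _))
  refine ⟨fun n => I (m n) + 1, fun n => I (m (n + 1)), fun n => J (m (n + 1)), c,
    fun n => (h2 n).trans ((hle n).trans (Nat.le_succ _)), hb, fun _ => rfl, fun n => hlt _,
    fun n => hm (n + 1) ▸ hle (n + 2), hmem, fun n t ht => ?_, hal, fun n => ?_, hone,
    fun n t h3 h4 u hu => ?_⟩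
  · rw [← ad_pow_succ, show t - (I (m n) + 1) + 1 = t + 1 - (I (m n) + 1) by omega]
  · exact hadd n _ _ (hb n) (hlt _).le ▸ (H (n + 1)).dead _ (hmem n _ (hb n))
  · obtain ⟨l, rfl⟩ := Nat.exists_eq_add_of_le (Nat.succ_le_of_lt h3)
    obtain ⟨κ, e, he, h5⟩ := (H (n + 1)).two l h4 u hu
    obtain ⟨κ', h6⟩ := hone n e he
    have h7 := ad_pow_mem (x := x) (k := l + 1) (m := I (m (n + 1)) + 1 + l + 1) h6 (by omega)
    have h8 := hadd n (I (m (n + 1))) (I (m (n + 1)) + 1 + l) (hb n) (by omega)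
    rw [show I (m (n + 1)) + 1 + l - I (m (n + 1)) = l + 1 by omega] at h8
    rw [map_sub, map_smul, h8] at h7
    refine ⟨κ, κ', ?_⟩
    simpa [c] using add_mem h5 h7

end Pool.Agent.P78
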